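import Pool.Agent.Helper53.PF.St

set_option autoImplicit false

namespace PF.Helper28

open Polynomial PF

private theorem lne_coef {R : Type} [CommRing R] (p0 p1 p2 p3 p4 q0 q1 q2 q3 q4 : R)
    (h : (C p4 * X ^ 4 + C p3 * X ^ 3 + C p2 * X ^ 2 + C p1 * X + C p0 : R[X])
      = C q4 * X ^ 4 + C q3 * X ^ 3 + C q2 * X ^ 2 + C q1 * X + C q0) :
    p0 = q0 ∧ p1 = q1 ∧ p2 = q2 ∧ p3 = q3 := by
  have h0 := congrArg (fun P => coeff P 0) h
  have h1 := congrArg (fun P => coeff P 1) h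
  have h2 := congrArg (fun P => coeff P 2) h
  have h3 := congrArg (fun P => coeff P 3) h
  simp [coeff_X, coeff_C, coeff_X_pow] at h0 h1 h2 h3
  exact ⟨h0, h1, h2, h3⟩

private theorem lne_quad {R : Type} [CommRing R] (p0 p1 p2 : R) :
    (C p2 * X ^ 2 + C p1 * X + C p0 : R[X]).coeff 0 = p0 ∧
    (C p2 * X ^ 2 + C p1 * X + C p0 : R[X]).coeff 1 = p1 ∧
    (C p2 * X ^ 2 + C p1 * X + C p0 : R[X]).coeff 2 = p2 := by
  refine ⟨?_, ?_, ?_⟩ <;> simp [coeff_X, coeff_C, coeff_X_pow]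

private theorem lne_FQ {k : Type} [Field k] (n : k) (D a b c : k[X]) :
    FQ n D a b c = C (3 * X * c ^ 2) * X ^ 4 + C (6 * X * b * c + 4 * D ^ 2) * X ^ 3
      + C (3 * X * (b ^ 2 + 2 * a * c)) * X ^ 2 + C (6 * X * a * b) * X
      + C (3 * X * a ^ 2 + D ^ 2 * (X ^ 3 - C (4 * n))) := by
  unfold FQ
  simp only [C_mul, C_add, C_sub, C_pow, map_ofNat]
  ring

private theorem lne_GQ {k : Type} [Field k] (n : k) (D a b c : k[X]) :
    GQ n D a b c =
      C ((C (4 * n) - X ^ 3) * (3 * D * c + 6 * X * D * derivative c - 6 * X * derivative D * c)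
        - 12 * X ^ 3 * D * c + 9 * X ^ 3 * D * c) * X ^ 2
      + C ((C (4 * n) - X ^ 3) * (3 * D * b + 6 * X * D * derivative b - 6 * X * derivative D * b)
        - 6 * X ^ 3 * D * b + 9 * X ^ 3 * D * b) * X
      + C ((C (4 * n) - X ^ 3) * (3 * D * a + 6 * X * D * derivative a - 6 * X * derivative D * a)
        + 9 * X ^ 3 * D * a) := by
  unfold GQ
  simp only [C_mul, C_add, C_sub, C_pow, map_ofNat]
  ring

private theorem lne_alg {R : Type} [CommRing R]
    (x n4 a b c D β m0 m1 m2 a' b' c' D' β' m0' m1' m2' : R)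
    (e0 : 3 * x * a ^ 2 + D ^ 2 * (x ^ 3 - n4) = - (β * m0))
    (e1 : 6 * x * a * b = 3 * x * c ^ 2 * m0 - β * m1)
    (e2 : 3 * x * (b ^ 2 + 2 * a * c) = 3 * x * c ^ 2 * m1 - β * m2)
    (e3 : 6 * x * b * c + 4 * D ^ 2 = 3 * x * c ^ 2 * m2 - β)
    (d0 : 3 * a ^ 2 + 6 * x * a * a' + 2 * D * D' * (x ^ 3 - n4) + D ^ 2 * (3 * x ^ 2)
      = - (β' * m0 + β * m0'))
    (d1 : 6 * a * b + 6 * x * a' * b + 6 * x * a * b'
      = (3 * c ^ 2 + 6 * x * c * c') * m0 + 3 * x * c ^ 2 * m0' - (β' * m1 + β * m1'))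
    (d2 : 3 * (b ^ 2 + 2 * a * c) + 3 * x * (2 * b * b' + 2 * (a' * c + a * c'))
      = (3 * c ^ 2 + 6 * x * c * c') * m1 + 3 * x * c ^ 2 * m1' - (β' * m2 + β * m2'))
    (d3 : 6 * b * c + 6 * x * (b' * c + b * c') + 8 * D * D'
      = (3 * c ^ 2 + 6 * x * c * c') * m2 + 3 * x * c ^ 2 * m2' - β')
    (hG : ((n4 - x ^ 3) * (3 * D * a + 6 * x * D * a' - 6 * x * D' * a) + 9 * x ^ 3 * D * a)
        * (3 * x * c ^ 2) ^ 2
      + ((n4 - x ^ 3) * (3 * D * b + 6 * x * D * b' - 6 * x * D' * b)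
        - 6 * x ^ 3 * D * b + 9 * x ^ 3 * D * b) * (3 * x * c ^ 2) * β
      + ((n4 - x ^ 3) * (3 * D * c + 6 * x * D * c' - 6 * x * D' * c)
        - 12 * x ^ 3 * D * c + 9 * x ^ 3 * D * c) * β ^ 2 = 0) :
    D * (β ^ 3 + m2 * β ^ 2 * (3 * x * c ^ 2) + m1 * β * (3 * x * c ^ 2) ^ 2
        + m0 * (3 * x * c ^ 2) ^ 3) *
      ((n4 - x ^ 3) * ((3 * c ^ 2 + 6 * x * c * c') * β - (3 * x * c ^ 2) * β')
        - x ^ 2 * (3 * x * c ^ 2) * β) = 0 := by
  linear_combination (a * (3 * x * c ^ 2) ^ 2 + b * (3 * x * c ^ 2) * β + c * β ^ 2) * hG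
    - D * (n4 - x ^ 3) * ((3 * x * c ^ 2) ^ 4 * d0 + (3 * x * c ^ 2) ^ 3 * β * d1
        + (3 * x * c ^ 2) ^ 2 * β ^ 2 * d2 + (3 * x * c ^ 2) * β ^ 3 * d3)
    + D * x ^ 2 * ((3 * x * c ^ 2) ^ 3 * β * e1
        + 2 * (3 * x * c ^ 2) ^ 2 * β ^ 2 * e2 + 3 * (3 * x * c ^ 2) * β ^ 3 * e3)
    + (2 * (n4 - x ^ 3) * D' - 3 * x ^ 2 * D) * ((3 * x * c ^ 2) ^ 4 * e0
        + (3 * x * c ^ 2) ^ 3 * β * e1
        + (3 * x * c ^ 2) ^ 2 * β ^ 2 * e2 + (3 * x * c ^ 2) * β ^ 3 * e3)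

theorem holds_LNE : PF.StLNE := by
  intro hIND k _ _ n s z hs hz M hM hMd hev D a b c β hD hc hF hG
  set m0 := M.coeff 0 with hm0
  set m1 := M.coeff 1 with hm1
  set m2 := M.coeff 2 with hm2
  have hMs : M = X ^ 3 + C m2 * X ^ 2 + C m1 * X + C m0 := by
    have := hM.as_sum
    rw [hMd] at this
    rw [this]
    simp only [Finset.sum_range_succ, Finset.sum_range_zero]
    rw [← hm0, ← hm1, ← hm2]
    ring
  have h3 : (3 : k[X]) ≠ 0 := by
    have : (3 : k[X]) = C (3 : k) := (map_ofNat C 3).symm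
    rw [this, Ne, C_eq_zero]
    exact three_ne_zero
  have hα : (3 * X * c ^ 2 : k[X]) ≠ 0 :=
    mul_ne_zero (mul_ne_zero h3 X_ne_zero) (pow_ne_zero 2 hc)
  have hF' : (C (3 * X * c ^ 2) * X ^ 4 + C (6 * X * b * c + 4 * D ^ 2) * X ^ 3
      + C (3 * X * (b ^ 2 + 2 * a * c)) * X ^ 2 + C (6 * X * a * b) * X
      + C (3 * X * a ^ 2 + D ^ 2 * (X ^ 3 - C (4 * n))) : k[X][X])
      = C (3 * X * c ^ 2) * X ^ 4 + C (3 * X * c ^ 2 * m2 - β) * X ^ 3
      + C (3 * X * c ^ 2 * m1 - β * m2) * X ^ 2 + C (3 * X * c ^ 2 * m0 - β * m1) * X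
      + C (- (β * m0)) := by
    rw [← lne_FQ, hF, hMs]
    simp only [C_mul, C_sub, C_pow, C_neg, map_ofNat]
    ring
  obtain ⟨e0, e1, e2, e3⟩ := lne_coef _ _ _ _ _ _ _ _ _ _ hF'
  have d0 := congrArg derivative e0
  have d1 := congrArg derivative e1
  have d2 := congrArg derivative e2
  have d3 := congrArg derivative e3
  simp only [derivative_add, derivative_sub, derivative_mul, derivative_X, derivative_C,
    derivative_ofNat, derivative_pow, derivative_neg, Nat.cast_ofNat, map_ofNat,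
    Nat.reduceSub, pow_one] at d0 d1 d2 d3
  obtain ⟨g0, g1, g2⟩ := lne_quad
    ((C (4 * n) - X ^ 3) * (3 * D * a + 6 * X * D * derivative a - 6 * X * derivative D * a)
        + 9 * X ^ 3 * D * a)
    ((C (4 * n) - X ^ 3) * (3 * D * b + 6 * X * D * derivative b - 6 * X * derivative D * b)
        - 6 * X ^ 3 * D * b + 9 * X ^ 3 * D * b)
    ((C (4 * n) - X ^ 3) * (3 * D * c + 6 * X * D * derivative c - 6 * X * derivative D * c)
        - 12 * X ^ 3 * D * c + 9 * X ^ 3 * D * c)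
  rw [lne_GQ, g0, g1, g2] at hG
  have key := lne_alg X (C (4 * n)) a b c D β m0 m1 m2 (derivative a) (derivative b)
    (derivative c) (derivative D) (derivative β) (derivative m0) (derivative m1) (derivative m2)
    e0 e1 e2 e3 (by linear_combination d0) (by linear_combination d1) (by linear_combination d2) (by linear_combination d3) hG
  have hα' : derivative (3 * X * c ^ 2 : k[X]) = 3 * c ^ 2 + 6 * X * c * derivative c := by
    simp only [derivative_mul, derivative_X, derivative_ofNat, derivative_pow, Nat.cast_ofNat,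
      map_ofNat, Nat.reduceSub, pow_one]
    ring
  rw [hα']
  rcases mul_eq_zero.1 key with h | h
  · exfalso
    rcases mul_eq_zero.1 h with h | h
    · exact hD h
    · set α : k[X] := 3 * X * c ^ 2 with hαd
      have hP : (C (α ^ 3) * M : k[X][X]) = (C α * X - C β) *
          (C (α ^ 2) * X ^ 2 + C (α * β + m2 * α ^ 2) * X
            + C (β ^ 2 + m2 * α * β + m1 * α ^ 2)) := by
        have : (C (β ^ 3 + m2 * β ^ 2 * α + m1 * β * α ^ 2 + m0 * α ^ 3) : k[X][X]) = 0 := by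
          rw [h, C_0]
        rw [hMs]
        simp only [C_mul, C_add, C_pow] at this ⊢
        linear_combination this
      have hP2 := congrArg (ev s z) hP
      rw [map_mul, hev, mul_zero, map_mul] at hP2
      rcases mul_eq_zero.1 hP2.symm with h1 | h1
      · have : (-β).comp s + α.comp s * z + (0 : k[X]).comp s * z ^ 2 = 0 := by
          have h2 : ev s z (C α * X - C β) = α.comp s * z - β.comp s := by
            simp [ev]
          rw [h2] at h1
          simp only [neg_comp, zero_comp]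
          linear_combination h1
        exact hα (hIND k s z _ _ _ hs (by rw [hz]; norm_num) this).2.1
      · have : (β ^ 2 + m2 * α * β + m1 * α ^ 2).comp s + (α * β + m2 * α ^ 2).comp s * z
            + (α ^ 2).comp s * z ^ 2 = 0 := by
          have h2 : ev s z (C (α ^ 2) * X ^ 2 + C (α * β + m2 * α ^ 2) * X
            + C (β ^ 2 + m2 * α * β + m1 * α ^ 2)) =
              (α ^ 2).comp s * z ^ 2 + (α * β + m2 * α ^ 2).comp s * z
              + (β ^ 2 + m2 * α * β + m1 * α ^ 2).comp s := by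
            unfold ev
            rw [coe_eval₂RingHom]
            simp only [eval₂_add, eval₂_mul, eval₂_C, eval₂_X, eval₂_X_pow]
            rfl
          rw [h2] at h1
          linear_combination h1
        exact pow_ne_zero 2 hα (hIND k s z _ _ _ hs (by rw [hz]; norm_num) this).2.2
  · linear_combination h

end PF.Helper28
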